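import Mathlib

/-!
# The dissociativity dimension of `m`-subsets of cyclic groups

The conjecture `dim(ℤ_n, m) = ⌊log₂ m⌋` fails for `n = 17`, `m = 14`.
-/

namespace Pool.Agent.Results.MP_fd91d0_co.Counterexample

/-- `B` is dissociated: there is no relation `∑_{b ∈ B} λ_b b = 0` with all
`λ_b ∈ {-1, 0, 1}` and not all `λ_b` equal to `0`. -/
def Dissociated {G : Type*} [AddCommGroup G] (B : Finset G) : Prop :=
  ∀ c : G → ℤ, (∀ b ∈ B, c b = -1 ∨ c b = 0 ∨ c b = 1) →
    ∑ b ∈ B, c b • b = 0 → ∀ b ∈ B, c b = 0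

/-- The dissociativity dimension `dim A` of a finite set `A`: the largest size of a dissociated
subset of `A`. -/
noncomputable def dimSet {G : Type*} [AddCommGroup G] (A : Finset G) : ℕ :=
  sSup {k : ℕ | ∃ B : Finset G, B ⊆ A ∧ Dissociated B ∧ B.card = k}

/-- `dim(G, m)`: the least value of `dim A` over the `m`-element subsets `A` of `G`. -/
noncomputable def dim (G : Type*) [AddCommGroup G] (m : ℕ) : ℕ :=
  sInf {k : ℕ | ∃ A : Finset G, A.card = m ∧ dimSet A = k}

theorem diss (a b c d : ZMod 17)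
    (h : ∀ x y z w : Fin 3, ((x : ℕ) : ZMod 17) * a + ((y : ℕ) : ZMod 17) * b
        + ((z : ℕ) : ZMod 17) * c + ((w : ℕ) : ZMod 17) * d = a + b + c + d →
        x = 1 ∧ y = 1 ∧ z = 1 ∧ w = 1)
    (hab : a ∉ ({b, c, d} : Finset (ZMod 17))) (hbc : b ∉ ({c, d} : Finset (ZMod 17)))
    (hcd : c ∉ ({d} : Finset (ZMod 17))) :
    Dissociated ({a, b, c, d} : Finset (ZMod 17)) := by
  intro f hf hsum
  rw [Finset.sum_insert hab, Finset.sum_insert hbc, Finset.sum_insert hcd,
    Finset.sum_singleton] at hsum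
  have key : ∀ t ∈ ({a, b, c, d} : Finset (ZMod 17)), ∃ x : Fin 3, f t = ((x : ℕ) : ℤ) - 1 := by
    intro t ht
    rcases hf t ht with h1 | h1 | h1
    · exact ⟨0, by rw [h1]; rfl⟩
    · exact ⟨1, by rw [h1]; rfl⟩
    · exact ⟨2, by rw [h1]; rfl⟩
  obtain ⟨x, hx⟩ := key a (by simp)
  obtain ⟨y, hy⟩ := key b (by simp)
  obtain ⟨z, hz⟩ := key c (by simp)
  obtain ⟨w, hw⟩ := key d (by simp)
  rw [hx, hy, hz, hw] at hsum
  have h2 := h x y z w (by
    simp only [zsmul_eq_mul, Int.cast_sub, Int.cast_natCast, Int.cast_one] at hsum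
    linear_combination hsum)
  obtain ⟨hx1, hy1, hz1, hw1⟩ := h2
  intro t ht
  simp only [Finset.mem_insert, Finset.mem_singleton] at ht
  rcases ht with rfl | rfl | rfl | rfl
  · rw [hx, hx1]; rfl
  · rw [hy, hy1]; rfl
  · rw [hz, hz1]; rfl
  · rw [hw, hw1]; rfl

theorem d1 : Dissociated ({1, 2, 4, 8} : Finset (ZMod 17)) :=
  diss 1 2 4 8 (by decide) (by decide) (by decide) (by decide)
theorem d2 : Dissociated ({16, 15, 13, 9} : Finset (ZMod 17)) :=
  diss 16 15 13 9 (by decide) (by decide) (by decide) (by decide)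
theorem d3 : Dissociated ({3, 6, 12, 7} : Finset (ZMod 17)) :=
  diss 3 6 12 7 (by decide) (by decide) (by decide) (by decide)
theorem d4 : Dissociated ({14, 11, 5, 10} : Finset (ZMod 17)) :=
  diss 14 11 5 10 (by decide) (by decide) (by decide) (by decide)

/-- Every `14`-element subset of `ℤ_17` contains a dissociated set with `4` elements. -/
theorem exists_four (A : Finset (ZMod 17)) (hA : A.card = 14) :
    ∃ B : Finset (ZMod 17), B ⊆ A ∧ Dissociated B ∧ B.card = 4 := by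
  by_contra hcon
  push Not at hcon
  have e1 : ¬ ({1, 2, 4, 8} : Finset (ZMod 17)) ⊆ A := fun h => hcon _ h d1 (by decide)
  have e2 : ¬ ({16, 15, 13, 9} : Finset (ZMod 17)) ⊆ A := fun h => hcon _ h d2 (by decide)
  have e3 : ¬ ({3, 6, 12, 7} : Finset (ZMod 17)) ⊆ A := fun h => hcon _ h d3 (by decide)
  have e4 : ¬ ({14, 11, 5, 10} : Finset (ZMod 17)) ⊆ A := fun h => hcon _ h d4 (by decide)
  obtain ⟨x1, m1, n1⟩ := Finset.not_subset.mp e1
  obtain ⟨x2, m2, n2⟩ := Finset.not_subset.mp e2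
  obtain ⟨x3, m3, n3⟩ := Finset.not_subset.mp e3
  obtain ⟨x4, m4, n4⟩ := Finset.not_subset.mp e4
  have hdist : ∀ (S T : Finset (ZMod 17)) (x y : ZMod 17), Disjoint S T → x ∈ S → y ∈ T → x ≠ y := by
    intro S T x y hST hx hy hxy
    subst hxy
    exact Finset.disjoint_left.mp hST hx hy
  have q12 : x1 ≠ x2 := hdist _ _ x1 x2 (by decide) m1 m2
  have q13 : x1 ≠ x3 := hdist _ _ x1 x3 (by decide) m1 m3
  have q14 : x1 ≠ x4 := hdist _ _ x1 x4 (by decide) m1 m4
  have q23 : x2 ≠ x3 := hdist _ _ x2 x3 (by decide) m2 m3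
  have q24 : x2 ≠ x4 := hdist _ _ x2 x4 (by decide) m2 m4
  have q34 : x3 ≠ x4 := hdist _ _ x3 x4 (by decide) m3 m4
  have hsub : ({x1, x2, x3, x4} : Finset (ZMod 17)) ⊆ Aᶜ := by
    intro t ht
    simp only [Finset.mem_insert, Finset.mem_singleton] at ht
    rw [Finset.mem_compl]
    rcases ht with rfl | rfl | rfl | rfl <;> assumption
  have hc := Finset.card_le_card hsub
  rw [Finset.card_compl, hA, ZMod.card] at hc
  have hc4 : ({x1, x2, x3, x4} : Finset (ZMod 17)).card = 4 := by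
    rw [Finset.card_insert_of_notMem, Finset.card_insert_of_notMem, Finset.card_insert_of_notMem,
      Finset.card_singleton]
    · simpa using q34
    · simp only [Finset.mem_insert, Finset.mem_singleton, not_or]
      exact ⟨q23, q24⟩
    · simp only [Finset.mem_insert, Finset.mem_singleton, not_or]
      exact ⟨q12, q13, q14⟩
  omega

/-- The conjecture `dim(ℤ_n, m) = ⌊log₂ m⌋` (`1 ≤ m ≤ n`) is false: it fails for
`n = 17`, `m = 14`. -/
theorem result : ∃ n m : ℕ, 1 ≤ m ∧ m ≤ n ∧ dim (ZMod n) m ≠ Nat.log 2 m := by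
  refine ⟨17, 14, by norm_num, by norm_num, ?_⟩
  intro h
  have hlog : Nat.log 2 14 = 3 := by
    rw [Nat.log_eq_iff (by norm_num)]; norm_num
  rw [hlog] at h
  have hne : {k : ℕ | ∃ A : Finset (ZMod 17), A.card = 14 ∧ dimSet A = k}.Nonempty := by
    obtain ⟨A, -, hA⟩ := Finset.exists_subset_card_eq
      (s := (Finset.univ : Finset (ZMod 17))) (n := 14) (by rw [Finset.card_univ, ZMod.card]; norm_num)
    exact ⟨dimSet A, A, hA, rfl⟩
  have hmem := Nat.sInf_mem hne
  obtain ⟨A, hA, hdim⟩ := hmem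
  have hdim' : dimSet A = 3 := by rw [hdim]; exact h
  obtain ⟨B, hBA, hB, hBc⟩ := exists_four A hA
  have hbdd : BddAbove {k : ℕ | ∃ B : Finset (ZMod 17), B ⊆ A ∧ Dissociated B ∧ B.card = k} := by
    refine ⟨A.card, ?_⟩
    rintro k ⟨B, hB, -, rfl⟩
    exact Finset.card_le_card hB
  have h4 : 4 ≤ dimSet A := le_csSup hbdd ⟨B, hBA, hB, hBc⟩
  omega

end Pool.Agent.Results.MP_fd91d0_co.Counterexample
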